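import Pool.Agent.helper51.QS.SpecA

/-!
# Row qs:DUA: dual derivations

`Ω = Ω[A⁄k]` is a finite module, and `A = k + m`, `m = ∑ k y_i + m²` give `Ω = ∑ A dy_i + m Ω`. By
Nakayama there is `r ∈ 1 + m` with `r Ω ⊆ ∑ A dy_i`. So the `dy_i` generate `Ω[K⁄k]`, which has
dimension `n`, hence they are a basis, and the coordinates of `da`, `a ∈ A`, are in `r⁻¹ A`.
-/

set_option autoImplicit false

namespace Pool.Agent.QS

open Pool.Agent.PC MvPolynomial

universe u

section DUAsec

variable {k A : Type u} [Field k] [CommRing A] [Algebra k A] {n : ℕ} {m : Ideal A} {y : Fin n → A}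

lemma DUA_sq (b : A) (hb : b ∈ m ^ 2) :
    KaehlerDifferential.D k A b ∈ m • (⊤ : Submodule A (Ω[A⁄k])) := by
  rw [pow_two] at hb
  refine Submodule.mul_induction_on hb ?_ ?_
  · intro c hc d hd
    rw [Derivation.leibniz]
    exact Submodule.add_mem _ (Submodule.smul_mem_smul hc Submodule.mem_top)
      (Submodule.smul_mem_smul hd Submodule.mem_top)
  · intro c d hc hd
    rw [map_add]
    exact Submodule.add_mem _ hc hd

lemma DUA_D (hk : ∀ a : A, ∃ c : k, a - algebraMap k A c ∈ m) (hc : Coord k m y) (a : A) :
    KaehlerDifferential.D k A a ∈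
      Submodule.span A (Set.range fun i => KaehlerDifferential.D k A (y i)) ⊔
        m • (⊤ : Submodule A (Ω[A⁄k])) := by
  obtain ⟨c, hc1⟩ := hk a
  obtain ⟨d, hd⟩ := hc.2.2 _ hc1
  have h1 := DUA_sq (k := k) _ hd
  have e : KaehlerDifferential.D k A a
      = ∑ i, (algebraMap k A (d i)) • KaehlerDifferential.D k A (y i) +
        KaehlerDifferential.D k A (a - algebraMap k A c - ∑ i, d i • y i) := by
    rw [map_sub, map_sub, Derivation.map_algebraMap, sub_zero, map_sum]
    have h2 : ∀ i, (algebraMap k A (d i)) • KaehlerDifferential.D k A (y i)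
        = KaehlerDifferential.D k A (d i • y i) := by
      intro i
      rw [Derivation.map_smul, algebraMap_smul]
    simp only [h2]
    abel
  rw [e]
  refine Submodule.add_mem_sup (Submodule.sum_mem _ fun i _ => ?_) h1
  exact Submodule.smul_mem _ _ (Submodule.subset_span ⟨i, rfl⟩)

lemma DUA_res [IsAlgClosed k] [Algebra.FiniteType k A] (hm : m.IsMaximal) (a : A) :
    ∃ c : k, a - algebraMap k A c ∈ m := by
  have := hm
  let _ : Field (A ⧸ m) := Ideal.Quotient.field m
  have : Algebra.FiniteType k (A ⧸ m) :=
    Algebra.FiniteType.of_surjective (Ideal.Quotient.mkₐ k m) Ideal.Quotient.mk_surjective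
  have : Module.Finite k (A ⧸ m) := finite_of_finite_type_of_isJacobsonRing k (A ⧸ m)
  have : Algebra.IsIntegral k (A ⧸ m) := inferInstance
  obtain ⟨c, hc⟩ := (IsAlgClosed.algebraMap_bijective_of_isIntegral (k := k) (K := A ⧸ m)).2
    (Ideal.Quotient.mk m a)
  refine ⟨c, ?_⟩
  rw [← Ideal.Quotient.eq, ← hc]
  rfl

end DUAsec

theorem DUA : DUA_stmt.{u} := by
  intro k A K _ _ _ _ _ _ _ _ _ _ _ n hfr m hm y hc
  have hk := DUA_res (k := k) hm
  have hfin : Module.Finite A (Ω[A⁄k]) := inferInstance
  have htop : (⊤ : Submodule A (Ω[A⁄k])) ≤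
      Submodule.span A (Set.range fun i => KaehlerDifferential.D k A (y i)) ⊔
        m • (⊤ : Submodule A (Ω[A⁄k])) := by
    rw [← KaehlerDifferential.span_range_derivation, Submodule.span_le]
    rintro _ ⟨a, rfl⟩
    rw [KaehlerDifferential.span_range_derivation]
    exact DUA_D hk hc a
  obtain ⟨r, hr1, hr2⟩ := Submodule.exists_sub_one_mem_and_smul_le_of_fg_of_le_sup
    hfin.fg_top le_rfl htop
  have hrm : r ∉ m := by
    intro h
    have h1 := Ideal.sub_mem _ h hr1
    rw [sub_sub_cancel] at h1
    exact hm.ne_top ((Ideal.eq_top_iff_one m).mpr h1)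
  have hr0 : algebraMap A K r ≠ 0 := by
    intro h
    rw [map_eq_zero_iff _ (IsFractionRing.injective A K)] at h
    exact hrm (h ▸ Ideal.zero_mem m)
  -- the coordinates of `da`
  have hco : ∀ a : A, ∃ c : Fin n → A,
      algebraMap A K r • KaehlerDifferential.D k K (algebraMap A K a) =
        ∑ i, algebraMap A K (c i) • KaehlerDifferential.D k K (algebraMap A K (y i)) := by
    intro a
    have h1 : r • KaehlerDifferential.D k A a ∈
        Submodule.span A (Set.range fun i => KaehlerDifferential.D k A (y i)) :=
      hr2 (Submodule.smul_mem_pointwise_smul _ _ _ Submodule.mem_top)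
    obtain ⟨c, hc'⟩ := (Submodule.mem_span_range_iff_exists_fun A).mp h1
    refine ⟨c, ?_⟩
    have h2 := congrArg (KaehlerDifferential.map k k A K) hc'
    rw [map_sum, map_smul, KaehlerDifferential.map_D] at h2
    rw [algebraMap_smul, ← h2]
    refine Finset.sum_congr rfl fun i _ => ?_
    rw [map_smul, KaehlerDifferential.map_D, algebraMap_smul]
  -- the `dy_i` generate
  have hspan : (⊤ : Submodule K (Ω[K⁄k])) ≤
      Submodule.span K (Set.range fun i => KaehlerDifferential.D k K (algebraMap A K (y i))) := by
    rw [← KaehlerDifferential.span_range_derivation, Submodule.span_le]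
    have hA : ∀ a : A, KaehlerDifferential.D k K (algebraMap A K a) ∈
        Submodule.span K (Set.range fun i => KaehlerDifferential.D k K (algebraMap A K (y i))) := by
      intro a
      obtain ⟨c, hc'⟩ := hco a
      rw [← inv_smul_smul₀ hr0 (KaehlerDifferential.D k K (algebraMap A K a)), hc']
      exact Submodule.smul_mem _ _ (Submodule.sum_mem _ fun i _ =>
        Submodule.smul_mem _ _ (Submodule.subset_span ⟨i, rfl⟩))
    rintro _ ⟨x, rfl⟩
    obtain ⟨a, s, hs, rfl⟩ := IsFractionRing.div_surjective (A := A) x
    have hs0 : algebraMap A K s ≠ 0 := by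
      rw [map_ne_zero_iff _ (IsFractionRing.injective A K)]
      exact nonZeroDivisors.ne_zero hs
    have h1 : algebraMap A K s • KaehlerDifferential.D k K (algebraMap A K a / algebraMap A K s)
        = KaehlerDifferential.D k K (algebraMap A K a) -
          (algebraMap A K a / algebraMap A K s) • KaehlerDifferential.D k K (algebraMap A K s) := by
      have h2 := (KaehlerDifferential.D k K).leibniz (algebraMap A K s)
        (algebraMap A K a / algebraMap A K s)
      rw [mul_div_cancel₀ _ hs0] at h2
      rw [h2]
      abel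
    rw [SetLike.mem_coe, ← inv_smul_smul₀ hs0
      (KaehlerDifferential.D k K (algebraMap A K a / algebraMap A K s)), h1]
    exact Submodule.smul_mem _ _ (Submodule.sub_mem _ (hA a) (Submodule.smul_mem _ _ (hA s)))
  let bas := basisOfTopLeSpanOfCardEqFinrank
    (fun i => KaehlerDifferential.D k K (algebraMap A K (y i))) hspan
    (by rw [Fintype.card_fin, hfr])
  have hbas : ∀ i, bas i = KaehlerDifferential.D k K (algebraMap A K (y i)) := fun i => by
    simp only [bas, coe_basisOfTopLeSpanOfCardEqFinrank]
  refine ⟨fun i => (bas.coord i).compDer (KaehlerDifferential.D k K), ?_, ?_⟩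
  · intro i j
    show bas.coord i (KaehlerDifferential.D k K (algebraMap A K (y j))) = _
    rw [← hbas, Module.Basis.coord_apply, Module.Basis.repr_self, Finsupp.single_apply]
    simp only [eq_comm]
  · intro i a
    obtain ⟨c, hc'⟩ := hco a
    refine ⟨c i, r, hrm, ?_⟩
    show bas.coord i (KaehlerDifferential.D k K (algebraMap A K a)) = _
    have h1 := congrArg (bas.coord i) hc'
    rw [map_smul, map_sum] at h1
    have h2 : ∀ j, bas.coord i (algebraMap A K (c j) •
        KaehlerDifferential.D k K (algebraMap A K (y j))) = if j = i then algebraMap A K (c j) else 0 := by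
      intro j
      rw [map_smul, ← hbas, Module.Basis.coord_apply, Module.Basis.repr_self, Finsupp.single_apply,
        smul_eq_mul]
      split_ifs <;> simp
    simp only [h2] at h1
    rw [Finset.sum_ite_eq' Finset.univ i, if_pos (Finset.mem_univ i), smul_eq_mul] at h1
    rw [eq_div_iff hr0, mul_comm]
    exact h1

end Pool.Agent.QS
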