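import Pool.Agent.helper51.QS.SpecA

/-!
# Row qs:TAY: Taylor expansion at a point
-/

set_option autoImplicit false

namespace Pool.Agent.QS

open Pool.Agent.PC MvPolynomial

universe u

section TAYsec

variable {k A : Type u} [Field k] [CommRing A] [Algebra k A] {n : ℕ} {m : Ideal A} {y : Fin n → A}

lemma TAY_mon (hy : ∀ i, y i ∈ m) (α : Fin n →₀ ℕ) (c : k) :
    aeval y (monomial α c) ∈ m ^ α.degree := by
  rw [aeval_monomial]
  refine Ideal.mul_mem_left _ _ ?_
  rw [Finsupp.prod_fintype _ _ (fun i => pow_zero _), Finsupp.degree_eq_sum,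
    ← Finset.prod_pow_eq_pow_sum]
  exact Ideal.prod_mem_prod fun i _ => Ideal.pow_mem_pow (hy i) _

lemma TAY_low (hy : ∀ i, y i ∈ m) (N : ℕ) (f : MvPolynomial (Fin n) k)
    (hf : ∀ α : Fin n →₀ ℕ, α.degree < N → coeff α f = 0) : aeval y f ∈ m ^ N := by
  rw [f.as_sum, map_sum]
  refine Ideal.sum_mem _ fun α hα => ?_
  have h1 : N ≤ α.degree := by
    by_contra hlt
    exact (mem_support_iff.mp hα) (hf α (by omega))
  exact Ideal.pow_le_pow_right h1 (TAY_mon hy α _)

lemma TAY_step (hk : ∀ a : A, ∃ c : k, a - algebraMap k A c ∈ m) (hc : Coord k m y) (N : ℕ) :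
    ∀ a ∈ m ^ N, ∃ f : MvPolynomial (Fin n) k, a - aeval y f ∈ m ^ (N + 1) := by
  induction N with
  | zero =>
    intro a _
    obtain ⟨c, hc'⟩ := hk a
    refine ⟨C c, ?_⟩
    rw [zero_add, pow_one, aeval_C]
    exact hc'
  | succ N ih =>
    intro a ha
    rw [pow_succ] at ha
    refine Submodule.mul_induction_on ha ?_ ?_
    · intro b hb c hc1
      obtain ⟨f, hf⟩ := ih b hb
      obtain ⟨d, hd⟩ := hc.2.2 c hc1
      have hs : aeval y (∑ i, C (d i) * X i : MvPolynomial (Fin n) k) = ∑ i, d i • y i := by
        rw [map_sum]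
        refine Finset.sum_congr rfl fun i _ => ?_
        rw [map_mul, aeval_C, aeval_X, Algebra.smul_def]
      refine ⟨f * ∑ i, C (d i) * X i, ?_⟩
      have e : b * c - aeval y (f * ∑ i, C (d i) * X i : MvPolynomial (Fin n) k)
          = aeval y f * (c - ∑ i, d i • y i) + (b - aeval y f) * c := by
        rw [map_mul, hs]
        ring
      rw [e]
      refine Ideal.add_mem _ ?_ ?_
      · have h1 : aeval y f ∈ m ^ N := by
          have h2 := Ideal.sub_mem _ hb (Ideal.pow_le_pow_right (Nat.le_succ N) hf)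
          rwa [sub_sub_cancel] at h2
        rw [show N + 1 + 1 = N + 2 from rfl, pow_add]
        exact Ideal.mul_mem_mul h1 hd
      · rw [pow_succ]
        exact Ideal.mul_mem_mul hf hc1
    · rintro b c ⟨f, hf⟩ ⟨g, hg⟩
      refine ⟨f + g, ?_⟩
      have h1 := Ideal.add_mem _ hf hg
      rw [map_add]
      have e : b + c - (aeval y f + aeval y g) = b - aeval y f + (c - aeval y g) := by ring
      rw [e]
      exact h1

lemma TAY_approx (hk : ∀ a : A, ∃ c : k, a - algebraMap k A c ∈ m) (hc : Coord k m y) (N : ℕ)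
    (a : A) : ∃ f : MvPolynomial (Fin n) k, a - aeval y f ∈ m ^ N := by
  induction N with
  | zero => exact ⟨0, by rw [pow_zero, Ideal.one_eq_top]; exact Submodule.mem_top⟩
  | succ N ih =>
    obtain ⟨f, hf⟩ := ih
    obtain ⟨g, hg⟩ := TAY_step hk hc N _ hf
    refine ⟨f + g, ?_⟩
    rw [map_add, ← sub_sub]
    exact hg

end TAYsec

theorem TAY : TAY_stmt.{u} := by
  intro k A _ _ _ n m hk y hc hH
  choose F hF using fun (N : ℕ) (a : A) => TAY_approx hk hc N a
  -- the power series
  let φ : A → MvPowerSeries (Fin n) k := fun a α => coeff α (F (α.degree + 1) a)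
  have key : ∀ (N : ℕ) (a : A) (f : MvPolynomial (Fin n) k), a - aeval y f ∈ m ^ N →
      ∀ α : Fin n →₀ ℕ, α.degree < N → MvPowerSeries.coeff α (φ a) = coeff α f := by
    intro N a f hf α hα
    have h1 : aeval y (F (α.degree + 1) a - f) ∈ m ^ (α.degree + 1) := by
      rw [map_sub]
      have h2 := Ideal.sub_mem _ (Ideal.pow_le_pow_right (show α.degree + 1 ≤ N by omega) hf)
        (hF (α.degree + 1) a)
      have e : a - aeval y f - (a - aeval y (F (α.degree + 1) a))
          = aeval y (F (α.degree + 1) a) - aeval y f := by ring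
      rwa [e] at h2
    have h3 := hH (α.degree + 1) _ h1 α (Nat.lt_succ_self _)
    rw [coeff_sub, sub_eq_zero] at h3
    exact h3
  have hadd : ∀ a b, φ (a + b) = φ a + φ b := by
    intro a b
    ext α
    set N := α.degree + 1 with hN
    have h1 : a + b - aeval y (F N a + F N b) ∈ m ^ N := by
      rw [map_add]
      have e : a + b - (aeval y (F N a) + aeval y (F N b))
          = a - aeval y (F N a) + (b - aeval y (F N b)) := by ring
      rw [e]
      exact Ideal.add_mem _ (hF N a) (hF N b)
    rw [key N _ _ h1 α (by omega), map_add, key N a _ (hF N a) α (by omega),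
      key N b _ (hF N b) α (by omega), coeff_add]
  have hmul : ∀ a b, φ (a * b) = φ a * φ b := by
    intro a b
    ext α
    set N := α.degree + 1 with hN
    have h1 : a * b - aeval y (F N a * F N b) ∈ m ^ N := by
      rw [map_mul]
      have e : a * b - aeval y (F N a) * aeval y (F N b)
          = a * (b - aeval y (F N b)) + aeval y (F N b) * (a - aeval y (F N a)) := by ring
      rw [e]
      exact Ideal.add_mem _ (Ideal.mul_mem_left _ _ (hF N b)) (Ideal.mul_mem_left _ _ (hF N a))
    rw [key N _ _ h1 α (by omega), MvPowerSeries.coeff_mul, coeff_mul]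
    refine Finset.sum_congr rfl fun p hp => ?_
    rw [Finset.HasAntidiagonal.mem_antidiagonal] at hp
    have hd : p.1.degree + p.2.degree = α.degree := by rw [← hp, map_add]
    rw [key N a _ (hF N a) p.1 (by omega), key N b _ (hF N b) p.2 (by omega)]
  have hpoly : ∀ f : MvPolynomial (Fin n) k, φ (aeval y f) = (f : MvPowerSeries (Fin n) k) := by
    intro f
    ext α
    have h1 : aeval y f - aeval y f ∈ m ^ (α.degree + 1) := by
      rw [sub_self]
      exact Ideal.zero_mem _
    rw [key _ _ _ h1 α (Nat.lt_succ_self _), MvPolynomial.coeff_coe]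
  have hC : ∀ c : k, φ (algebraMap k A c) = algebraMap k (MvPowerSeries (Fin n) k) c := by
    intro c
    have h1 := hpoly (C c)
    rw [aeval_C] at h1
    rw [h1, MvPolynomial.coe_C]
    rfl
  refine ⟨{ toFun := φ, map_one' := ?_, map_mul' := hmul, map_zero' := ?_, map_add' := hadd,
            commutes' := hC }, ?_, ?_⟩
  · have h1 := hC 1
    rwa [map_one, map_one] at h1
  · have h1 := hC 0
    rwa [map_zero, map_zero] at h1
  · intro i
    have h1 := hpoly (X i)
    rw [aeval_X, MvPolynomial.coe_X] at h1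
    exact h1
  · intro N b
    constructor
    · intro hb α hα
      have h1 : b - aeval y (0 : MvPolynomial (Fin n) k) ∈ m ^ N := by
        rw [map_zero, sub_zero]
        exact hb
      exact key N b 0 h1 α hα
    · intro hb
      obtain ⟨f, hf⟩ := TAY_approx hk hc N b
      have h1 : aeval y f ∈ m ^ N := by
        refine TAY_low hc.1 N f fun α hα => ?_
        rw [← key N b f hf α hα]
        exact hb α hα
      have h2 := Ideal.add_mem _ hf h1
      rwa [sub_add_cancel] at h2

end Pool.Agent.QS
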