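import Pool.Agent.helper32.QS.Spec

/-!
# Project qs: (MP_e82547_al), module CA
-/

set_option autoImplicit false

open scoped BigOperators commutatorElement

namespace QS

theorem CA_bpow {G : Type} [Group G] (a b c : G) (h : b * a = c * (a * b)) (hcb : Commute c b)
    (n : ℕ) : b ^ n * a = c ^ n * (a * b ^ n) := by
  induction n with
  | zero => simp
  | succ n ih =>
    have hc : b * c ^ n = c ^ n * b := ((hcb.pow_left n).eq).symm
    calc b ^ (n + 1) * a = b * (b ^ n * a) := by rw [pow_succ' b, mul_assoc]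
      _ = b * c ^ n * (a * b ^ n) := by rw [ih, mul_assoc]
      _ = c ^ n * (b * a) * b ^ n := by rw [hc]; simp only [mul_assoc]
      _ = c ^ (n + 1) * (a * b ^ (n + 1)) := by
          rw [h, pow_succ c, pow_succ' b]; simp only [mul_assoc]

theorem CA_mulpow {G : Type} [Group G] (a b c : G) (h : b * a = c * (a * b)) (hca : Commute c a)
    (hcb : Commute c b) (n : ℕ) : (a * b) ^ n = a ^ n * b ^ n * c ^ (n.choose 2) := by
  induction n with
  | zero => simp
  | succ n ih =>
    have e : (n + 1).choose 2 = n + n.choose 2 := by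
      rw [Nat.choose_succ_succ' n 1, Nat.choose_one_right]
    have hc1 : Commute (c ^ (n.choose 2)) (a * b) :=
      (hca.mul_right hcb).pow_left _
    have hc2 : Commute (c ^ n) (a * b ^ (n + 1)) :=
      ((hca.mul_right (hcb.pow_right _))).pow_left _
    calc (a * b) ^ (n + 1) = a ^ n * b ^ n * (c ^ (n.choose 2) * (a * b)) := by
          rw [pow_succ, ih, mul_assoc]
      _ = a ^ n * (b ^ n * a) * b * c ^ (n.choose 2) := by
          rw [hc1.eq]; simp only [mul_assoc]
      _ = a ^ n * (c ^ n * (a * b ^ (n + 1))) * c ^ (n.choose 2) := by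
          rw [CA_bpow a b c h hcb n, pow_succ b]; simp only [mul_assoc]
      _ = a ^ (n + 1) * b ^ (n + 1) * c ^ ((n + 1).choose 2) := by
          rw [hc2.eq, e, pow_add c, pow_succ a]; simp only [mul_assoc]

theorem CA_pow {G : Type} [Group G] [Finite G] (K : Subgroup G) (p : ℕ) (hp : p.Prime)
    (hc : Nat.card {a : G // a ∈ K ∧ a ^ p = 1} ≤ p) (z : G) (hz : z ∈ K) (hzp : z ^ p = 1)
    (hz1 : z ≠ 1) (a : G) (ha : a ∈ K) (hap : a ^ p = 1) : ∃ j : ℕ, a = z ^ j := by
  haveI : Fact p.Prime := ⟨hp⟩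
  have ho : orderOf z = p := orderOf_eq_prime hzp hz1
  let f : Fin p → {a : G // a ∈ K ∧ a ^ p = 1} := fun i =>
    ⟨z ^ (i : ℕ), K.pow_mem hz _, by rw [← pow_mul, mul_comm, pow_mul, hzp, one_pow]⟩
  have hf : Function.Injective f := by
    intro i j hij
    have h1 : z ^ (i : ℕ) = z ^ (j : ℕ) := congrArg Subtype.val hij
    have h2 := pow_injOn_Iio_orderOf (x := z) (by rw [ho]; exact i.2) (by rw [ho]; exact j.2) h1
    exact Fin.ext h2
  have hb := hf.bijective_of_nat_card_le (le_of_le_of_eq hc (by simp))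
  obtain ⟨i, hi⟩ := hb.2 ⟨a, ha, hap⟩
  exact ⟨i, (congrArg Subtype.val hi).symm⟩

theorem CA_uniq {k U : Type} [Field k] [AddCommGroup U] [Module k U] (w : U) (hw : w ≠ 0)
    (c d : k) (h : c • w = d • w) : c = d := by
  have h1 : (c - d) • w = 0 := by rw [sub_smul, h, sub_self]
  rcases smul_eq_zero.1 h1 with h2 | h2
  · exact sub_eq_zero.1 h2
  · exact absurd h2 hw

/-- the homomorphism to the Galois group -/
theorem CA_hom (k U H : Type) [Field k] [Finite k] [AddCommGroup U] [Module k U]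
    [Group H] [DistribMulAction H U] (hS : SLD k U H) :
    ∃ (r : ℕ) (_ : Fact r.Prime) (_ : CharP k r),
      letI := ZMod.algebra k r
      ∃ φ : H →* (k ≃ₐ[ZMod r] k), ∀ h : H, φ h = 1 ↔ h ∈ SC k U H := by
  obtain ⟨r, hr⟩ := CharP.exists k
  haveI := hr
  have hrp : r.Prime := CharP.char_is_prime k r
  haveI : Fact r.Prime := ⟨hrp⟩
  refine ⟨r, ⟨hrp⟩, hr, ?_⟩
  letI := ZMod.algebra k r
  obtain ⟨u, hu⟩ := @exists_ne U hS.nt 0
  have hhu : ∀ h : H, h • u ≠ 0 := by
    intro h h0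
    apply hu
    have : h⁻¹ • (h • u) = 0 := by rw [h0, smul_zero]
    rwa [inv_smul_smul] at this
  choose σ hσ using hS.semi
  have hcomm : ∀ h : H, ∀ a : ZMod r, σ h (algebraMap (ZMod r) k a) = algebraMap (ZMod r) k a := by
    intro h a
    exact RingHom.congr_fun (Subsingleton.elim ((σ h).toRingHom.comp (algebraMap (ZMod r) k))
      (algebraMap (ZMod r) k)) a
  have hone : ∀ c : k, σ 1 c = c := by
    intro c
    apply CA_uniq u hu
    have := hσ 1 c u
    rw [one_smul, one_smul] at this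
    exact this.symm
  have hmul : ∀ (x y : H) (c : k), σ (x * y) c = σ x (σ y c) := by
    intro x y c
    apply CA_uniq ((x * y) • u) (hhu _)
    rw [← hσ, mul_smul, hσ y, hσ x, mul_smul]
  refine ⟨{ toFun := fun h => AlgEquiv.ofRingEquiv (f := σ h) (hcomm h)
            map_one' := ?_
            map_mul' := ?_ }, ?_⟩
  · ext c
    exact hone c
  · intro x y
    ext c
    exact hmul x y c
  · intro h
    constructor
    · intro h1 c v
      have h2 : σ h c = c := by
        have := congrArg (fun e : k ≃ₐ[ZMod r] k => e c) h1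
        exact this
      rw [hσ, h2]
    · intro h1
      ext c
      change σ h c = c
      apply CA_uniq (h • u) (hhu h)
      rw [← hσ, h1 c u]

theorem CA (hK2 : K2_stmt) (hK3 : K3_stmt) : CA_stmt := by
  intro k U H _ _ _ _ _ _ _ _ hS p hp hp2 x y hxy hle
  obtain ⟨hxp, hyp, hz1, hzx, hzy⟩ := hxy
  obtain ⟨-, -, -, hcomC, -⟩ := hK2 k U H hS
  obtain ⟨-, -, hcard, hcent⟩ := hK3 k U H hS
  set z := ⁅x, y⁆ with hzdef
  have hzA : z ∈ SA k U H := hle (hcomC x y)
  have hxyz : x * y = z * (y * x) := by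
    rw [hzdef, commutatorElement_def]; group
  have hcx : Commute z x := hzx
  have hcy : Commute z y := hzy
  have hzp : z ^ p = 1 := by
    have h1 := CA_bpow y x z hxyz hcx p
    rw [hxp, one_mul, mul_one] at h1
    exact (mul_eq_right.1 h1.symm)
  have hA : ∀ a ∈ SA k U H, a ^ p = 1 → ∃ j : ℕ, a = z ^ j := fun a ha hap =>
    CA_pow (SA k U H) p hp (hcard p hp.one_lt.le) z hzA hzp hz1 a ha hap
  have hxA : x ∉ SA k U H := by
    intro hx
    obtain ⟨j, hj⟩ := hA x hx hxp
    apply hz1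
    rw [hzdef, commutatorElement_eq_one_iff_mul_comm, hj]
    exact (hcy.pow_left j).eq
  obtain ⟨r, hr, hch, φ, hφ⟩ := CA_hom k U H hS
  letI := ZMod.algebra k r
  haveI := hr
  haveI : Finite (k ≃ₐ[ZMod r] k) := inferInstance
  have hφx : φ x ≠ 1 := fun h => hxA (hle ((hφ x).1 h))
  have hcyc : Nat.card {a : (k ≃ₐ[ZMod r] k) // a ∈ (⊤ : Subgroup (k ≃ₐ[ZMod r] k)) ∧ a ^ p = 1} ≤ p := by
    classical
    haveI := Fintype.ofFinite (k ≃ₐ[ZMod r] k)
    have h1 := IsCyclic.card_pow_eq_one_le (α := (k ≃ₐ[ZMod r] k)) hp.pos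
    refine le_trans (le_of_eq ?_) h1
    rw [Nat.card_eq_fintype_card, Fintype.card_subtype]
    congr 1
    ext a
    simp
  obtain ⟨j, hj⟩ := CA_pow (⊤ : Subgroup (k ≃ₐ[ZMod r] k)) p hp hcyc (φ x) (Subgroup.mem_top _)
    (by rw [← map_pow, hxp, map_one]) hφx (φ y) (Subgroup.mem_top _) (by rw [← map_pow, hyp, map_one])
  set w : H := y * (x⁻¹) ^ j with hw
  have hwA : w ∈ SA k U H := by
    apply hle
    rw [← hφ, hw, map_mul, map_pow, map_inv, hj, inv_pow, mul_inv_cancel]
  have hx' : x⁻¹ * y = z⁻¹ * (y * x⁻¹) := by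
    have h2 : x⁻¹ * z = z * x⁻¹ := (hcx.inv_right).eq.symm
    have h3 : y = z * (x⁻¹ * y * x) := by
      calc y = x⁻¹ * (x * y) := by group
        _ = x⁻¹ * z * (y * x) := by rw [hxyz, mul_assoc]
        _ = z * (x⁻¹ * y * x) := by rw [h2]; simp only [mul_assoc]
    have h4 : z⁻¹ * y = x⁻¹ * y * x := by
      nth_rewrite 1 [h3]
      rw [inv_mul_cancel_left]
    calc x⁻¹ * y = (x⁻¹ * y * x) * x⁻¹ := by group
      _ = z⁻¹ * (y * x⁻¹) := by rw [← h4, mul_assoc]
  have hb := CA_bpow y x⁻¹ z⁻¹ hx' (hcx.inv_inv) j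
  have hwp : w ^ p = 1 := by
    have h5 := CA_mulpow y ((x⁻¹) ^ j) ((z⁻¹) ^ j) hb ((hcy.inv_left).pow_left j)
      (((hcx.inv_inv).pow_left j).pow_right j) p
    have h6 : p ∣ p.choose 2 := by
      apply hp.dvd_choose_self (by norm_num)
      have := hp.two_le
      omega
    obtain ⟨m, hm⟩ := h6
    rw [hw, h5, hyp, one_mul, ← pow_mul, mul_comm j p, pow_mul, inv_pow, hxp, inv_one, one_pow,
      one_mul, hm, ← pow_mul, mul_comm j (p * m), mul_assoc, pow_mul, inv_pow, hzp, inv_one, one_pow]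
  obtain ⟨i, hi⟩ := hA w hwA hwp
  have hyx : y = z ^ i * x ^ j := by
    rw [← hi, hw, inv_pow, inv_mul_cancel_right]
  apply hz1
  rw [hzdef, commutatorElement_eq_one_iff_mul_comm]
  have h7 : Commute x y := by
    rw [hyx]
    exact ((hcx.pow_left i).symm).mul_right (Commute.pow_right (Commute.refl x) j)
  exact h7.eq

end QS
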